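import Mathlib
import Pool.Agent.Transv.Final
import Pool.Agent.TrI.W10
import Pool.Agent.TrI.K10

/-!
MP_33d970_lc, Q1.

(1) Under GCH, for every infinite cardinal `κ`, every `lam < κ` and every `ι ≥ κ`, we determine whether `ι` is good for
`(κ, lam)`, that is, whether every family of `ι` sets of cardinality `κ` with degree of disjunction `lam` has a
`lam⁺`-transversal, in terms of the existence of ladder systems.

(2), (3) This is the best possible answer: `ZFC + GCH` does not decide the simplest cases. The cardinals `k` with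
`ℵ₀ < k ≤ ℵ_{ω+1}` are considered in countable wellfounded models of `ZFC + GCH`: in the first model `ℵ_{ω+1}` is good
for `(k, ℵ₀)` for all of them, in the second model no `m ≥ ℵ_{ω+1}` is good for `(k, ℵ₀)` for any of them.
-/

set_option autoImplicit false

namespace Pool.Agent.Results.MP_33d970_lc.GoodCardinalsIndependence

open Cardinal Order Pool.Agent.Transv Pool.Agent.SplK Pool.Agent.H55.SC Pool.Agent.H55.CS
open Pool.Agent.SplC (IsBij IsCard)
open Pool.Agent.TrI (IsGCH IsAlephOmegaSucc IsGoodFor)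

universe u

theorem criterion (gch : ∀ c : Cardinal.{u}, ℵ₀ ≤ c → (2 : Cardinal.{u}) ^ c = Order.succ c)
    (κ lam ι : Cardinal.{u}) (hκ : ℵ₀ ≤ κ) (hlam : lam < κ) (hι : κ ≤ ι) :
    IsGood κ lam ι ↔
      lam ≤ 1 ∨ (lam < ℵ₀ ∧ ι = κ) ∨
      (ℵ₀ ≤ lam ∧ ∀ μ : Cardinal.{u}, lam < μ → μ.ord.cof = lam.ord.cof →
        κ ≤ Order.succ μ → Order.succ μ ≤ ι → ¬ HasLadders μ lam) := by
  rcases lt_or_ge lam ℵ₀ with hfin | hinf
  · obtain ⟨r, rfl⟩ := Cardinal.lt_aleph0.1 hfin
    rcases le_or_gt r 1 with hr | hr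
    · have h1 : ((r : ℕ) : Cardinal.{u}) ≤ 1 := by exact_mod_cast hr
      refine ⟨fun _ => Or.inl h1, fun _ => ?_⟩
      have hr' : r = 0 ∨ r = 1 := by omega
      rcases hr' with rfl | rfl
      · rw [Nat.cast_zero]
        exact isGood_zero (one_lt_aleph0.trans_le (hκ.trans hι))
      · rw [Nat.cast_one]
        exact (hasTr_one κ ι hκ).isGood
    · rw [isGood_iff_finite gch hκ hι r hr]
      constructor
      · intro h
        exact Or.inr (Or.inl ⟨hfin, h⟩)
      · rintro (h | h | h)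
        · have : r ≤ 1 := by exact_mod_cast h
          omega
        · exact h.2
        · exact absurd h.1 hfin.not_ge
  · rw [isGood_iff_infinite gch hinf hlam hι]
    constructor
    · intro h
      exact Or.inr (Or.inr ⟨hinf, h⟩)
    · rintro (h | h | h)
      · exact absurd (h.trans_lt one_lt_aleph0) hinf.not_gt
      · exact absurd h.1 hinf.not_gt
      · exact h.2

/-- (1) (GCH) Let `κ` be infinite, `lam < κ ≤ ι`. Then `ι` is good for `(κ, lam)` if and only if
* `lam ≤ 1`, or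
* `lam` is finite and `ι = κ`, or
* `lam` is infinite and no cardinal `μ > lam` with the same cofinality as `lam` and with `κ ≤ μ⁺ ≤ ι` carries a ladder
  system: a stationary set `S ⊆ μ⁺` and sets `B δ ⊆ δ` of cardinality `lam⁺` for `δ ∈ S`, any two of which share fewer than
  `lam` points.

(2) (GCH) There is a countable wellfounded model of `ZFC + GCH` in which `ℵ_{ω+1}` is good for `(k, ℵ₀)` for every cardinal
`k` with `ℵ₀ < k ≤ ℵ_{ω+1}`.

(3) (GCH) If there is an inaccessible supercompact cardinal then there is a countable wellfounded model of `ZFC + GCH` in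
which no cardinal `m ≥ ℵ_{ω+1}` is good for `(k, ℵ₀)` for any cardinal `k` with `ℵ₀ < k ≤ ℵ_{ω+1}`. -/
theorem result :
    (∀ (_ : ∀ c : Cardinal.{u}, ℵ₀ ≤ c → (2 : Cardinal.{u}) ^ c = Order.succ c) (κ lam ι : Cardinal.{u}),
      ℵ₀ ≤ κ → lam < κ → κ ≤ ι → (IsGood κ lam ι ↔
        lam ≤ 1 ∨ (lam < ℵ₀ ∧ ι = κ) ∨
        (ℵ₀ ≤ lam ∧ ∀ μ : Cardinal.{u}, lam < μ → μ.ord.cof = lam.ord.cof →
          κ ≤ Order.succ μ → Order.succ μ ≤ ι → ¬ HasLadders μ lam))) ∧
    ((∀ c : Cardinal.{0}, ℵ₀ ≤ c → (2 : Cardinal.{0}) ^ c = Order.succ c) →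
      ∃ (M : Type 1) (E : M → M → Prop), Countable M ∧ WellFounded E ∧ ZFC E ∧
        ∃ w l : M, IsOmega E w ∧ IsGCH E w ∧ IsAlephOmegaSucc E w l ∧
          ∀ k : M, IsCard E k → E w k → Sub E k l → IsGoodFor E k w l) ∧
    ((∀ c : Cardinal.{0}, ℵ₀ ≤ c → (2 : Cardinal.{0}) ^ c = Order.succ c) →
      ∀ κ : Cardinal.{0}, κ.IsInaccessible → (∀ Θ : Type, ∃ W : Ultrafilter (Set Θ), NFU κ Θ W) →
        ∃ (M : Type 1) (E : M → M → Prop), Countable M ∧ WellFounded E ∧ ZFC E ∧
          ∃ w l : M, IsOmega E w ∧ IsGCH E w ∧ IsAlephOmegaSucc E w l ∧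
            ∀ k m : M, IsCard E k → E w k → Sub E k l → IsCard E m → Sub E l m → ¬ IsGoodFor E k w m) :=
  ⟨fun gch κ lam ι hκ hlam hι => criterion gch κ lam ι hκ hlam hι, fun gch => Pool.Agent.TrI.goodModel gch,
    fun gch κ hκ sc => Pool.Agent.TrI.bad_of_sc gch hκ sc⟩

end Pool.Agent.Results.MP_33d970_lc.GoodCardinalsIndependence
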